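import Pool.Agent.R569.RPO.Lists
import Pool.Agent.H761R3.Sys

/-!
# Arithmetic in the subword ordering: existential formulas with left multiplication by letters
-/

set_option autoImplicit false

namespace Pool.Agent.R569.RPO

open List

/-- word expressions `pre · x` or `pre` -/
structure WE where
  pre : List Bool
  base : Option ℕ

/-- value of a word expression -/
def WE.val (u : ℕ → List Bool) (e : WE) : List Bool := e.pre ++ e.base.elim [] u

/-- Boolean combinations of `s ⊑ t` -/
inductive WF : Type
  | sub (s t : WE) : WF
  | neg (φ : WF) : WF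
  | and (φ ψ : WF) : WF
  | or (φ ψ : WF) : WF

/-- truth -/
def WF.Holds (u : ℕ → List Bool) : WF → Prop
  | .sub s t => s.val u <+ t.val u
  | .neg φ => ¬ φ.Holds u
  | .and φ ψ => φ.Holds u ∧ ψ.Holds u
  | .or φ ψ => φ.Holds u ∨ ψ.Holds u

/-- a variable -/
def X (i : ℕ) : WE := ⟨[], some i⟩
/-- a constant -/
def K (w : List Bool) : WE := ⟨w, none⟩
/-- left multiplication -/
def WE.cons (x : Bool) (e : WE) : WE := ⟨x :: e.pre, e.base⟩

@[simp] theorem val_X (u : ℕ → List Bool) (i : ℕ) : (X i).val u = u i := rfl
@[simp] theorem val_K (u : ℕ → List Bool) (w : List Bool) : (K w).val u = w := by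
  simp [K, WE.val]
@[simp] theorem val_cons (u : ℕ → List Bool) (x : Bool) (e : WE) :
    (e.cons x).val u = x :: e.val u := rfl

/-- conjunction of a list -/
def WF.conj : List WF → WF
  | [] => .sub (K []) (K [])
  | φ :: L => .and φ (WF.conj L)

theorem holds_conj (u : ℕ → List Bool) (L : List WF) :
    (WF.conj L).Holds u ↔ ∀ φ ∈ L, φ.Holds u := by
  induction L with
  | nil => simp [WF.conj, WF.Holds]
  | cons φ L ih => simp [WF.conj, WF.Holds, ih]

/-- the number of `a`s of `w` is the exponent of `X` -/
def WF.cntA (Y w : WE) : WF := .and (.sub Y w) (.neg (.sub (Y.cons true) w))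
/-- the number of `b`s of `w` is the exponent of `Y` -/
def WF.cntB (Y w : WE) : WF := .and (.sub Y w) (.neg (.sub (Y.cons false) w))

theorem cntA_iff {Y w : List Bool} {n : ℕ} (h : Y = ra n) :
    (Y <+ w ∧ ¬ true :: Y <+ w) ↔ w.count true = n := by
  subst h
  rw [cons_ra, ra_sub, ra_sub]
  omega

theorem cntB_iff {Y w : List Bool} {n : ℕ} (h : Y = rb n) :
    (Y <+ w ∧ ¬ false :: Y <+ w) ↔ w.count false = n := by
  subst h
  rw [cons_rb, rb_sub, rb_sub]
  omega

/-! ### addition -/

/-- addition, as conditions on words -/
def addP (x y z : ℕ) (w U : List Bool) : Prop :=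
  ¬ [false, false] <+ U ∧ ¬ [false, true] <+ U ∧ [false] <+ U ∧ U.count true = x ∧
  ¬ [false, false] <+ w ∧ U <+ w ∧ ¬ true :: U <+ w ∧ false :: ra y <+ w ∧
  ¬ false :: true :: ra y <+ w ∧ w.count true = z

theorem add_iff (x y z : ℕ) : (∃ w U, addP x y z w U) ↔ x + y = z := by
  constructor
  · rintro ⟨w, U, h1, h2, h3, h4, h5, h6, h7, h8, h9, h10⟩
    have hbU : U.count false = 1 := by
      have e1 : ¬ rb 2 <+ U := h1
      have e2 : rb 1 <+ U := h3
      rw [rb_sub] at e1 e2
      omega
    have hbw : w.count false = 1 := by
      have e1 : ¬ rb 2 <+ w := h5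
      have e2 : rb 1 <+ w := h3.trans h6
      rw [rb_sub] at e1 e2
      omega
    have hU : U = ra x ++ rb 1 := shape_ab h4 hbU h2
    obtain ⟨g, s, hw, hs⟩ := first_b (w := w) (by omega)
    have hs0 : s.count false = 0 := by omega
    have hs1 := eq_ra_of_count hs0
    subst hU hw
    have h6' : ra x ++ false :: [] <+ ra g ++ false :: s := h6
    obtain ⟨e1, _⟩ := align (by simp [hs0]) h6'
    have e2 : ¬ x + 1 ≤ g := by
      intro h
      apply h7
      change ra (x + 1) ++ [false] <+ ra g ++ false :: s
      have e3 : ra g ++ false :: s = (ra g ++ [false]) ++ s := by simp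
      rw [e3]
      refine List.Sublist.trans ?_ (List.sublist_append_left _ _)
      exact List.Sublist.append (by simpa [ra_sub] using h) (Sublist.refl _)
    have h8' : ra 0 ++ false :: ra y <+ ra g ++ false :: s := h8
    obtain ⟨_, e4⟩ := align (by simp [hs0]) h8'
    rw [ra_sub] at e4
    have e5 : ¬ y + 1 ≤ s.count true := by
      intro h
      apply h9
      change false :: ra (y + 1) <+ ra g ++ false :: s
      refine List.Sublist.trans ?_ (List.sublist_append_right _ _)
      rw [List.cons_sublist_cons, ra_sub]
      exact h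
    simp at h10
    omega
  · rintro rfl
    have e1 : ∀ g l, false :: l <+ ra g ++ false :: ra y → l <+ ra y := by
      intro g l h
      simpa using b_cons_sub h
    refine ⟨ra x ++ false :: ra y, ra x ++ [false], ?_, ?_, ?_, ?_, ?_, ?_, ?_, ?_, ?_, ?_⟩
    · change ¬ rb 2 <+ _
      rw [rb_sub]; simp
    · intro h
      have := b_cons_sub h
      simp at this
    · simp
    · simp
    · change ¬ rb 2 <+ _
      rw [rb_sub]; simp
    · exact List.Sublist.append (Sublist.refl _) (by simp)
    · intro h
      have h' : ra (x + 1) ++ false :: [] <+ ra x ++ false :: ra y := h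
      obtain ⟨h1, _⟩ := align (by simp) h'
      omega
    · exact List.sublist_append_right _ _
    · intro h
      have := e1 _ _ h
      rw [cons_ra, ra_sub] at this
      simp at this
    · simp

/-- addition, as a formula: `A Y Z` hold the numbers, `w` and `U` are auxiliary -/
def addF (A Y Z w U : WE) : WF := WF.conj [
  .neg (.sub (K [false, false]) U), .neg (.sub (K [false, true]) U), .sub (K [false]) U,
  WF.cntA A U, .neg (.sub (K [false, false]) w), .sub U w, .neg (.sub (U.cons true) w),
  .sub (Y.cons false) w, .neg (.sub ((Y.cons true).cons false) w), WF.cntA Z w]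

theorem addF_holds {u : ℕ → List Bool} {A Y Z w U : WE} {x y z : ℕ} (hA : A.val u = ra x)
    (hY : Y.val u = ra y) (hZ : Z.val u = ra z) :
    (addF A Y Z w U).Holds u ↔ addP x y z (w.val u) (U.val u) := by
  simp only [addF, holds_conj, List.forall_mem_cons, WF.Holds, WF.cntA, val_K, val_cons,
    cntA_iff hA, cntA_iff hZ, addP, hY]
  simp

/-! ### the core of multiplication -/

/-- the conditions which force `w = (a^x b)^k` -/
def coreP (x k z : ℕ) (w Q R V v : List Bool) : Prop :=
  w.count false = k ∧ w.count true = z ∧
  (Q.count false = k ∧ [true] <+ Q ∧ ¬ [true, true] <+ Q ∧ ¬ [true, false] <+ Q) ∧ ¬ Q <+ w ∧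
  (R.count false = k ∧ R.count true = x ∧ ¬ [true, false, true] <+ R ∧
    ¬ [true, false, false] <+ R ∧ [true, false] <+ R) ∧ R <+ w ∧
  w <+ V ∧ V.count false = k + 1 ∧ V.count true = z ∧ ¬ Q <+ V ∧ V <+ v

theorem core_sound {x k z : ℕ} {w Q R V v : List Bool} (hx : 1 ≤ x)
    (h : coreP x k z w Q R V v) (hv : v = ra x ++ false :: w) : z = x * k := by
  obtain ⟨h1, h2, ⟨q1, q2, q3, q4⟩, h3, ⟨r1, r2, r3, r4, r5⟩, h4, h5, h6, h7, h8, h9⟩ := h
  have hQ : Q = rb k ++ [true] := by
    refine shape_ba ?_ q1 q4
    have e1 : ra 1 <+ Q := q2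
    have e2 : ¬ ra 2 <+ Q := q3
    rw [ra_sub] at e1 e2
    omega
  obtain ⟨hk, hR⟩ := shape_R hx r2 r1 r3 r4 r5
  subst hQ
  -- w ends with `ab`
  have hw : ∃ s, w = s ++ [true, false] := by
    rcases not_Q h1 h3 with ⟨h, _⟩ | ⟨s, hs, hs2⟩
    · omega
    · subst hs
      rw [hR] at h4
      have h10 : (rb (k - 1) ++ ra x) ++ [false] <+ s ++ [false] := by simpa using h4
      rw [List.append_sublist_append_right] at h10
      obtain ⟨t1, t2, h11, h12, h13⟩ := List.append_sublist_iff.1 h10
      rw [rb_sub] at h12
      rw [ra_sub] at h13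
      have h14 : t2.count false = 0 := by
        have := congrArg (List.count false) h11
        simp only [List.count_append] at this
        omega
      have h15 := eq_ra_of_count h14
      obtain ⟨m, hm⟩ : ∃ m, t2.count true = m + 1 := ⟨t2.count true - 1, by omega⟩
      rw [hm, show ra (m + 1) = ra m ++ [true] from List.replicate_succ'] at h15
      refine ⟨t1 ++ ra m, ?_⟩
      rw [h11, h15]
      simp
  have hV := shape_V2 h1 hw h5 h6 (h7.trans h2.symm) h8
  rw [hV, hv] at h9
  have h10 := (all_blocks k x w h1 le_rfl h9 h3 (fun _ => hR ▸ h4)).1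
  rw [h10, pw_count_a] at h2
  exact h2.symm

theorem pw_snoc_eq (x k : ℕ) : ra x ++ false :: pw x k = pw x k ++ (ra x ++ [false]) := by
  rw [← pw_snoc]; rfl

theorem core_complete {x k : ℕ} (hx : 1 ≤ x) (hk : 1 ≤ k) :
    coreP x k (x * k) (pw x k) (rb k ++ [true]) (rb (k - 1) ++ (ra x ++ [false]))
      (pw x k ++ [false]) (ra x ++ false :: pw x k) := by
  obtain ⟨s, hs, hs2⟩ := pw_ends (x := x) hk
  refine ⟨pw_count_b x k, pw_count_a x k, ⟨by simp, by simp, ?_, ?_⟩, ?_, ⟨?_, by simp, ?_, ?_, ?_⟩,
    ?_, List.sublist_append_left _ _, ?_, ?_, ?_, ?_⟩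
  · change ¬ ra 2 <+ _
    rw [ra_sub]; simp
  · intro h
    have h2 : [true, false] <+ [true] := by
      obtain ⟨t1, t2, h3, h4, h5⟩ := List.sublist_append_iff.1 h
      have h6 : t1 = [] := by
        rcases t1 with _ | ⟨y, t1⟩
        · rfl
        · have : y = true := by
            simp only [List.cons_append, List.cons.injEq] at h3
            exact h3.1.symm
          subst this
          have := h4.count_le true
          simp at this
      rw [h6, List.nil_append] at h3
      rw [h3]; exact h5
    have := h2.length_le
    simp at this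
  · rw [hs]
    exact not_Q_of_ends (by omega)
  · simp; omega
  · intro h
    have h2 := List.sublist_append_iff.1 h
    obtain ⟨t1, t2, h3, h4, h5⟩ := h2
    have h6 : t1 = [] := by
      rcases t1 with _ | ⟨y, t1⟩
      · rfl
      · have : y = true := by
          simp only [List.cons_append, List.cons.injEq] at h3
          exact h3.1.symm
        subst this
        have := h4.count_le true
        simp at this
    rw [h6, List.nil_append] at h3
    rw [← h3] at h5
    have h7 : [true, false] ++ [true] <+ ra x ++ [false] := h5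
    obtain ⟨v1, v2, h8, h9, h10⟩ := List.sublist_append_iff.1 h7
    have h11 : v2 = [] := by
      rcases List.eq_nil_or_concat v2 with h | ⟨v, y, h⟩
      · exact h
      · exfalso
        rw [h, List.concat_eq_append] at h8 h10
        have h15 : [y] <+ [false] := (List.sublist_append_right _ _).trans h10
        have h16 := List.singleton_sublist.1 h15
        simp only [List.mem_singleton] at h16
        subst h16
        have h17 := congrArg List.getLast? h8
        simp at h17
    rw [h11, List.append_nil] at h8
    rw [← h8] at h9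
    have := h9.count_le false
    simp at this
  · intro h
    have h2 := List.sublist_append_iff.1 h
    obtain ⟨t1, t2, h3, h4, h5⟩ := h2
    have h6 : t1 = [] := by
      rcases t1 with _ | ⟨y, t1⟩
      · rfl
      · have : y = true := by
          simp only [List.cons_append, List.cons.injEq] at h3
          exact h3.1.symm
        subst this
        have := h4.count_le true
        simp at this
    rw [h6, List.nil_append] at h3
    rw [← h3] at h5
    have := h5.count_le false
    simp at this
  · refine List.Sublist.trans ?_ (List.sublist_append_right _ _)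
    obtain ⟨x, rfl⟩ : ∃ x', x = x' + 1 := ⟨x - 1, by omega⟩
    have : ra (x + 1) ++ [false] = ra x ++ [true, false] := by
      rw [show ra (x + 1) = ra x ++ [true] from List.replicate_succ']
      simp
    rw [this]
    exact List.sublist_append_right _ _
  · obtain ⟨k, rfl⟩ : ∃ k', k = k' + 1 := ⟨k - 1, by omega⟩
    rw [pw_snoc]
    refine List.Sublist.append ?_ (Sublist.refl _)
    rw [rb_sub, pw_count_b]
    omega
  · simp [pw_count_b]
  · simp [pw_count_a]
  · rw [hs]
    have h1 : (s ++ [false]) ++ [false] = (s ++ [false]) ++ [false] := rfl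
    intro h
    obtain ⟨u1, u2, h7, h8, h9⟩ := List.append_sublist_iff.1 h
    have h10 := rb_sub.1 h8
    have h11 : [true] <+ u2 := h9
    have h12 : u2.count true ≠ 0 := by
      have := ra_sub.1 (show ra 1 <+ u2 from h11)
      omega
    -- the last two letters are `b`, so `u2` has at least two `b`s
    have h13 : ∃ u3, u2 = u3 ++ [false, false] := by
      have e1 : s ++ [false, false] = u1 ++ u2 := by simpa using h7
      rcases List.eq_nil_or_concat u2 with h | ⟨v, y, h⟩
      · subst h; simp at h12
      · rw [List.concat_eq_append] at h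
        subst h
        have e2 : (s ++ [false]) ++ [false] = (u1 ++ v) ++ [y] := by simpa using e1
        have e3 := List.append_inj' e2 rfl
        rcases List.eq_nil_or_concat v with h | ⟨v', y', h⟩
        · subst h
          have := e3.2
          simp at this
          subst this
          simp at h12
        · rw [List.concat_eq_append] at h
          subst h
          have e4 : s ++ [false] = (u1 ++ v') ++ [y'] := by simpa using e3.1
          have e5 := List.append_inj' e4 rfl
          have e6 := e5.2
          have e7 := e3.2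
          simp at e6 e7
          subst e6 e7
          exact ⟨v', by simp⟩
    obtain ⟨u3, rfl⟩ := h13
    have h14 := congrArg (List.count false) h7
    simp only [List.count_append, List.count_cons_self, List.count_nil] at h14
    omega
  · rw [pw_snoc_eq]
    exact List.Sublist.append (Sublist.refl _) (List.sublist_append_right _ _)

/-- the core, as a formula: `A` holds `x`, `B` holds `b^k`, `Z` holds `z` -/
def coreF (A B Z w Q R V v : WE) : WF := WF.conj [
  WF.cntB B w, WF.cntA Z w, WF.cntB B Q, .sub (K [true]) Q, .neg (.sub (K [true, true]) Q),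
  .neg (.sub (K [true, false]) Q), .neg (.sub Q w), WF.cntB B R, WF.cntA A R,
  .neg (.sub (K [true, false, true]) R), .neg (.sub (K [true, false, false]) R),
  .sub (K [true, false]) R, .sub R w, .sub w V, WF.cntB (B.cons false) V, WF.cntA Z V,
  .neg (.sub Q V), .sub V v]

theorem coreF_holds {u : ℕ → List Bool} {A B Z w Q R V v : WE} {x k z : ℕ} (hA : A.val u = ra x)
    (hB : B.val u = rb k) (hZ : Z.val u = ra z) :
    (coreF A B Z w Q R V v).Holds u ↔
      coreP x k z (w.val u) (Q.val u) (R.val u) (V.val u) (v.val u) := by
  have hB' : (B.cons false).val u = rb (k + 1) := by rw [val_cons, hB]; rfl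
  simp only [coreF, holds_conj, List.forall_mem_cons, WF.Holds, WF.cntA, WF.cntB, val_K,
    val_cons (e := Z), val_cons (e := A), val_cons (e := B), val_cons (e := B.cons false),
    cntA_iff hA, cntA_iff hZ, cntB_iff hB, coreP]
  rw [← val_cons (e := B), cntB_iff hB']
  simp
  tauto

end Pool.Agent.R569.RPO
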