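import Mathlib

/-!
# The recursive path ordering with status: definitions
-/

set_option autoImplicit false

namespace Pool.Agent.R569.RPO

/-- A finite signature (the function symbols are `0, …, n - 1`, the symbol `f` has arity `ar f`, and
there is at least one constant) with a precedence, i.e. a strict partial order (`prec f g` means
`f ≻ g`), and a status function (`lex f = true`: status lex, `lex f = false`: status mul). -/
structure Data where
  n : ℕ
  ar : Fin n → ℕ
  hconst : ∃ c, ar c = 0
  prec : Fin n → Fin n → Prop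
  irrefl : ∀ f, ¬ prec f f
  trans : ∀ f g h, prec f g → prec g h → prec f h
  lex : Fin n → Bool

/-- The ground terms `T(F)`. -/
inductive Tm (S : Data) : Type
  | app (f : Fin S.n) (ts : Fin (S.ar f) → Tm S) : Tm S

/-- The congruence `≈` generated by permuting the arguments of symbols with status mul:
`f(s_1, …, s_m) ≈ f(t_1, …, t_m)` if `s_i ≈ t_{σ(i)}` for all `i`, for a permutation `σ` which is the
identity if `f` has status lex. -/
inductive Eqv {S : Data} : Tm S → Tm S → Prop
  | app (f : Fin S.n) (ss ts : Fin (S.ar f) → Tm S) (σ : Equiv.Perm (Fin (S.ar f)))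
      (hσ : S.lex f = true → σ = 1) (h : ∀ i, Eqv (ss i) (ts (σ i))) :
      Eqv (.app f ss) (.app f ts)

/-- The recursive path ordering `s > t` with status. The relation `E` is the notion of equality of
arguments used in the lexicographic comparison; the two usual readings are `E = (≈)` and
`E = (=)`.

* `subEq`, `subGt`: clause 1, `s = f(s_1, …, s_m) > t` if `s_i ≈ t` or `s_i > t` for some `i`;
* `prec`: clause 2, `f(s_1, …, s_m) > g(t_1, …, t_n)` if `f ≻ g` and `s > t_j` for all `j`;
* `lex`: clause 3 for status lex, `s > t_j` for all `j`, and for some `k` the first `k - 1` arguments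
  are equal (in the sense of `E`) and `s_k > t_k`;
* `mul`: clause 3 for status mul, `s > t_j` for all `j`, and the multiset of the `s_i` is greater than
  the multiset of the `t_j` in the multiset extension of `>` modulo `≈`: the arguments `s_i` with `i`
  in a nonempty set `A` are replaced by the `t_j` with `j` in a set `B`, each of which is smaller than
  some `s_{d(j)}` with `d(j)` in `A`, and the other arguments are matched up to `≈`. -/
inductive Gt {S : Data} (E : Tm S → Tm S → Prop) : Tm S → Tm S → Prop
  | subEq (f : Fin S.n) (ss : Fin (S.ar f) → Tm S) (t : Tm S) (i : Fin (S.ar f))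
      (h : Eqv (ss i) t) : Gt E (.app f ss) t
  | subGt (f : Fin S.n) (ss : Fin (S.ar f) → Tm S) (t : Tm S) (i : Fin (S.ar f))
      (h : Gt E (ss i) t) : Gt E (.app f ss) t
  | prec (f g : Fin S.n) (ss : Fin (S.ar f) → Tm S) (ts : Fin (S.ar g) → Tm S)
      (h : S.prec f g) (h' : ∀ j, Gt E (.app f ss) (ts j)) : Gt E (.app f ss) (.app g ts)
  | lex (f : Fin S.n) (ss ts : Fin (S.ar f) → Tm S) (hf : S.lex f = true)
      (h' : ∀ j, Gt E (.app f ss) (ts j)) (k : Fin (S.ar f)) (h1 : ∀ j < k, E (ss j) (ts j))
      (h2 : Gt E (ss k) (ts k)) : Gt E (.app f ss) (.app f ts)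
  | mul (f : Fin S.n) (ss ts : Fin (S.ar f) → Tm S) (hf : S.lex f = false)
      (h' : ∀ j, Gt E (.app f ss) (ts j)) (A B : Set (Fin (S.ar f))) (hA : A.Nonempty)
      (e : {i // i ∉ A} ≃ {j // j ∉ B}) (h1 : ∀ i : {i // i ∉ A}, Eqv (ss i.1) (ts (e i).1))
      (d : Fin (S.ar f) → Fin (S.ar f)) (hd : ∀ j ∈ B, d j ∈ A)
      (h2 : ∀ j ∈ B, Gt E (ss (d j)) (ts j)) : Gt E (.app f ss) (.app f ts)

/-- Terms with variables `x_0, x_1, …`. -/
inductive VTm (S : Data) : Type
  | var (i : ℕ) : VTm S
  | app (f : Fin S.n) (ts : Fin (S.ar f) → VTm S) : VTm S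

/-- The value of a term under an assignment of ground terms to the variables. -/
def VTm.eval {S : Data} (v : ℕ → Tm S) : VTm S → Tm S
  | .var i => v i
  | .app f ts => .app f (fun i => (ts i).eval v)

/-- Quantifier-free formulas: Boolean combinations of atoms `s = t` and `s > t`. -/
inductive QF (S : Data) : Type
  | eq (s t : VTm S) : QF S
  | gt (s t : VTm S) : QF S
  | neg (φ : QF S) : QF S
  | and (φ ψ : QF S) : QF S
  | or (φ ψ : QF S) : QF S

/-- Truth of a quantifier-free formula in `T(F)` with the recursive path ordering. -/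
def QF.Holds {S : Data} (E : Tm S → Tm S → Prop) (v : ℕ → Tm S) : QF S → Prop
  | .eq s t => s.eval v = t.eval v
  | .gt s t => Gt E (s.eval v) (t.eval v)
  | .neg φ => ¬ φ.Holds E v
  | .and φ ψ => φ.Holds E v ∧ ψ.Holds E v
  | .or φ ψ => φ.Holds E v ∨ ψ.Holds E v

/-- The existential sentence `∃ x_0 ∃ x_1 … φ` (all variables of `φ` are quantified existentially) is
true in `T(F)` with the recursive path ordering. -/
def QF.ExTrue {S : Data} (E : Tm S → Tm S → Prop) (φ : QF S) : Prop := ∃ v, φ.Holds E v

/-- Goedel numbers of terms. -/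
def VTm.code {S : Data} : VTm S → ℕ
  | .var i => Nat.pair 0 i
  | .app f ts => Nat.pair 1 (Nat.pair f (Encodable.encode (List.ofFn fun i => (ts i).code)))

/-- Goedel numbers of quantifier-free formulas (and of their existential closures). -/
def QF.code {S : Data} : QF S → ℕ
  | .eq s t => Nat.pair 0 (Nat.pair s.code t.code)
  | .gt s t => Nat.pair 1 (Nat.pair s.code t.code)
  | .neg φ => Nat.pair 2 φ.code
  | .and φ ψ => Nat.pair 3 (Nat.pair φ.code ψ.code)
  | .or φ ψ => Nat.pair 4 (Nat.pair φ.code ψ.code)

/-- The existential fragment of the theory of `T(F)` with the recursive path ordering is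
decidable. -/
def ExDecidable (S : Data) (E : Tm S → Tm S → Prop) : Prop :=
  ∃ D : ℕ → Prop, ComputablePred D ∧ ∀ φ : QF S, D φ.code ↔ φ.ExTrue E

theorem VTm.code_injective {S : Data} : Function.Injective (VTm.code (S := S)) := by
  intro s
  induction s with
  | var i =>
    intro t h
    cases t with
    | var j =>
      simp only [VTm.code, Nat.pair_eq_pair] at h
      rw [h.2]
    | app g ts => simp [VTm.code, Nat.pair_eq_pair] at h
  | app f ss ih =>
    intro t h
    cases t with
    | var j => simp [VTm.code, Nat.pair_eq_pair] at h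
    | app g ts =>
      simp only [VTm.code, Nat.pair_eq_pair, true_and] at h
      obtain ⟨h1, h2⟩ := h
      have h3 : f = g := Fin.ext h1
      subst h3
      have h4 := List.ofFn_injective (Encodable.encode_injective h2)
      have h5 : ss = ts := by
        funext i
        exact ih i (congrFun h4 i)
      rw [h5]

theorem QF.code_injective {S : Data} : Function.Injective (QF.code (S := S)) := by
  intro s
  induction s with
  | eq a b =>
    intro t h
    cases t <;> simp [QF.code, Nat.pair_eq_pair] at h
    rw [VTm.code_injective h.1, VTm.code_injective h.2]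
  | gt a b =>
    intro t h
    cases t <;> simp [QF.code, Nat.pair_eq_pair] at h
    rw [VTm.code_injective h.1, VTm.code_injective h.2]
  | neg φ ih =>
    intro t h
    cases t <;> simp [QF.code, Nat.pair_eq_pair] at h
    rw [ih h]
  | and φ ψ ih1 ih2 =>
    intro t h
    cases t <;> simp [QF.code, Nat.pair_eq_pair] at h
    rw [ih1 h.1, ih2 h.2]
  | or φ ψ ih1 ih2 =>
    intro t h
    cases t <;> simp [QF.code, Nat.pair_eq_pair] at h
    rw [ih1 h.1, ih2 h.2]

end Pool.Agent.R569.RPO
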