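import Pool.Agent.R569.RPO.Arith

/-!
# Every recursively enumerable set is defined by an existential formula on words
-/

set_option autoImplicit false

namespace Pool.Agent.R569.RPO

open List Pool.Agent.H761R3.Sys

/-- multiplication of positive numbers, as a formula -/
def mulBig (A Y Z : WE) (a : ℕ → WE) : WF := WF.conj [
  .neg (.sub (K [true]) (a 0)),
  coreF (K [true]) (a 0) Y (a 1) (a 2) (a 3) (a 4) (((a 1).cons false).cons true),
  coreF A (a 0) Z (a 5) (a 6) (a 7) (a 8) (a 9),
  .sub ((a 5).cons false) (a 9), WF.cntB ((a 0).cons false) (a 9),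
  .neg (.sub (K [false]) (a 11)), WF.cntA (a 11) (a 9),
  WF.cntA A (a 10), WF.cntB ((a 0).cons false) (a 10), .neg (.sub (K [false, true]) (a 10)),
  .sub (a 10) (a 9),
  addF Z A (a 11) (a 12) (a 13)]

/-- multiplication, as a formula -/
def mulF (A Y Z : WE) (a : ℕ → WE) : WF :=
  .or (.and (.sub A (K [])) (.sub Z (K [])))
    (.or (.and (.sub Y (K [])) (.sub Z (K [])))
      (.and (.sub (K [true]) A) (.and (.sub (K [true]) Y) (mulBig A Y Z a))))

theorem not_a {w : List Bool} (h : ¬ [true] <+ w) : ∃ k, w = rb k := by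
  refine ⟨_, eq_rb_of_count ?_⟩
  by_contra hh
  exact h (ra_sub.2 (by omega : 1 ≤ w.count true))

theorem not_b {w : List Bool} (h : ¬ [false] <+ w) : ∃ k, w = ra k := by
  refine ⟨_, eq_ra_of_count ?_⟩
  by_contra hh
  exact h (rb_sub.2 (by omega : 1 ≤ w.count false))

theorem mulBig_sound {u : ℕ → List Bool} {A Y Z : WE} {a : ℕ → WE} {x y z : ℕ}
    (hA : A.val u = ra x) (hY : Y.val u = ra y) (hZ : Z.val u = ra z) (hx : 1 ≤ x)
    (h : (mulBig A Y Z a).Holds u) : z = x * y := by
  simp only [mulBig, holds_conj, List.forall_mem_cons] at h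
  obtain ⟨h0, h1, h2, h3, h4, h5, h6, h7, h8, h9, h10, h11, -⟩ := h
  obtain ⟨k, hk⟩ := not_a (w := (a 0).val u) (by simpa [WF.Holds] using h0)
  obtain ⟨t, ht⟩ := not_b (w := (a 11).val u) (by simpa [WF.Holds] using h5)
  have hk1 : ((a 0).cons false).val u = rb (k + 1) := by rw [val_cons, hk]; rfl
  rw [coreF_holds (x := 1) (k := k) (z := y) rfl hk hY] at h1
  rw [coreF_holds (x := x) (k := k) (z := z) hA hk hZ] at h2
  have e1 := core_sound le_rfl h1 rfl
  rw [addF_holds hZ hA ht] at h11
  have e2 := (add_iff _ _ _).1 ⟨_, _, h11⟩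
  simp only [WF.Holds, WF.cntA, WF.cntB] at h3 h4 h6 h7 h8 h9 h10
  rw [val_cons (e := (a 0).cons false), hk1] at h4 h8
  rw [val_cons, ht] at h6
  rw [val_cons, hA] at h7
  have h4' := (cntB_iff rfl).1 h4
  have h8' := (cntB_iff rfl).1 h8
  have h6' := (cntA_iff rfl).1 h6
  have h7' := (cntA_iff rfl).1 h7
  have hS := shape_ab h7' h8' (by simpa using h9)
  have e3 := shape_v (w := (a 5).val u) (v := (a 9).val u) (x := x) (k := k) h2.1
    (by simpa using h3) h4' (by rw [h6', ← e2, h2.2.1]) (hS ▸ h10)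
  have e4 := core_sound hx h2 e3
  rw [e4, e1]
  ring

/-- auxiliary words for multiplication -/
noncomputable def mulAux (x y : ℕ) (w2 U2 : List Bool) : ℕ → List Bool
  | 0 => rb y
  | 1 => pw 1 y
  | 2 => rb y ++ [true]
  | 3 => rb (y - 1) ++ (ra 1 ++ [false])
  | 4 => pw 1 y ++ [false]
  | 5 => pw x y
  | 6 => rb y ++ [true]
  | 7 => rb (y - 1) ++ (ra x ++ [false])
  | 8 => pw x y ++ [false]
  | 9 => ra x ++ false :: pw x y
  | 10 => ra x ++ rb (y + 1)
  | 11 => ra (x * y + x)
  | 12 => w2
  | 13 => U2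
  | _ => []

theorem mulBig_complete {x y : ℕ} (hx : 1 ≤ x) (hy : 1 ≤ y) : ∃ b : ℕ → List Bool,
    ∀ (u : ℕ → List Bool) (A Y Z : WE) (a : ℕ → WE), A.val u = ra x → Y.val u = ra y →
      Z.val u = ra (x * y) → (∀ t < 14, (a t).val u = b t) → (mulBig A Y Z a).Holds u := by
  obtain ⟨w2, U2, hadd⟩ := (add_iff (x * y) x (x * y + x)).2 rfl
  refine ⟨mulAux x y w2 U2, ?_⟩
  intro u A Y Z a hA hY hZ ha
  have e0 : (a 0).val u = rb y := ha 0 (by omega)
  have e1 : (a 1).val u = pw 1 y := ha 1 (by omega)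
  have e2 : (a 2).val u = rb y ++ [true] := ha 2 (by omega)
  have e3 : (a 3).val u = rb (y - 1) ++ (ra 1 ++ [false]) := ha 3 (by omega)
  have e4 : (a 4).val u = pw 1 y ++ [false] := ha 4 (by omega)
  have e5 : (a 5).val u = pw x y := ha 5 (by omega)
  have e6 : (a 6).val u = rb y ++ [true] := ha 6 (by omega)
  have e7 : (a 7).val u = rb (y - 1) ++ (ra x ++ [false]) := ha 7 (by omega)
  have e8 : (a 8).val u = pw x y ++ [false] := ha 8 (by omega)
  have e9 : (a 9).val u = ra x ++ false :: pw x y := ha 9 (by omega)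
  have e10 : (a 10).val u = ra x ++ rb (y + 1) := ha 10 (by omega)
  have e11 : (a 11).val u = ra (x * y + x) := ha 11 (by omega)
  have e12 : (a 12).val u = w2 := ha 12 (by omega)
  have e13 : (a 13).val u = U2 := ha 13 (by omega)
  have hk1 : ((a 0).cons false).val u = rb (y + 1) := by rw [val_cons, e0]; rfl
  simp only [mulBig, holds_conj, List.forall_mem_cons]
  refine ⟨?_, ?_, ?_, ?_, ?_, ?_, ?_, ?_, ?_, ?_, ?_, ?_, by simp⟩
  · simp only [WF.Holds, val_K, e0]
    intro h
    have := ra_sub.1 (show ra 1 <+ rb y from h)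
    simp at this
  · rw [coreF_holds (x := 1) (k := y) (z := y) rfl e0 hY, e1, e2, e3, e4, val_cons, val_cons, e1]
    have := core_complete (x := 1) (k := y) le_rfl hy
    rw [one_mul] at this
    exact this
  · rw [coreF_holds (x := x) (k := y) (z := x * y) hA e0 hZ, e5, e6, e7, e8, e9]
    exact core_complete hx hy
  · simp only [WF.Holds, val_cons, e5, e9]
    exact List.sublist_append_right _ _
  · simp only [WF.Holds, WF.cntB]
    rw [val_cons (e := (a 0).cons false), hk1, e9]
    exact (cntB_iff rfl).2 (by simp [pw_count_b])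
  · simp only [WF.Holds, val_K, e11]
    intro h
    have := rb_sub.1 (show rb 1 <+ ra (x * y + x) from h)
    simp at this
  · simp only [WF.Holds, WF.cntA]
    rw [val_cons, e11, e9]
    exact (cntA_iff rfl).2 (by simp [pw_count_a]; ring)
  · simp only [WF.Holds, WF.cntA]
    rw [val_cons, hA, e10]
    exact (cntA_iff rfl).2 (by simp)
  · simp only [WF.Holds, WF.cntB]
    rw [val_cons (e := (a 0).cons false), hk1, e10]
    exact (cntB_iff rfl).2 (by simp)
  · simp only [WF.Holds, val_K, e10]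
    intro h
    have h2 : false :: [true] <+ ra x ++ rb (y + 1) := h
    have h3 := b_cons_sub h2
    have := h3.count_le true
    simp at this
  · simp only [WF.Holds, e10, e9]
    refine List.Sublist.append (Sublist.refl _) ?_
    change false :: rb y <+ _
    rw [List.cons_sublist_cons, rb_sub, pw_count_b]
  · rw [addF_holds hZ hA e11, e12, e13]
    exact hadd

theorem sub_nil_iff {w : List Bool} : w <+ [] ↔ w = [] := List.sublist_nil

theorem mulF_sound {u : ℕ → List Bool} {A Y Z : WE} {a : ℕ → WE} {x y z : ℕ}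
    (hA : A.val u = ra x) (hY : Y.val u = ra y) (hZ : Z.val u = ra z)
    (h : (mulF A Y Z a).Holds u) : x * y = z := by
  have e0 : ∀ n, ra n = [] ↔ n = 0 := fun n => by simp
  simp only [mulF, WF.Holds, val_K, hA, hY, hZ, sub_nil_iff, e0] at h
  rcases h with ⟨h1, h2⟩ | ⟨h1, h2⟩ | ⟨h1, h2, h3⟩
  · rw [h1, h2, zero_mul]
  · rw [h1, h2, mul_zero]
  · have hx : 1 ≤ x := by simpa using ra_sub.1 (show ra 1 <+ ra x from h1)
    exact (mulBig_sound hA hY hZ hx h3).symm

theorem mulF_complete (x y : ℕ) : ∃ b : ℕ → List Bool,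
    ∀ (u : ℕ → List Bool) (A Y Z : WE) (a : ℕ → WE), A.val u = ra x → Y.val u = ra y →
      Z.val u = ra (x * y) → (∀ t < 14, (a t).val u = b t) → (mulF A Y Z a).Holds u := by
  have e0 : ∀ n, ra n = [] ↔ n = 0 := fun n => by simp
  by_cases hx : x = 0
  · refine ⟨fun _ => [], fun u A Y Z a hA hY hZ _ => Or.inl ?_⟩
    simp only [WF.Holds, val_K, hA, hZ, sub_nil_iff, e0, hx, zero_mul, and_self]
  by_cases hy : y = 0
  · refine ⟨fun _ => [], fun u A Y Z a hA hY hZ _ => Or.inr (Or.inl ?_)⟩
    simp only [WF.Holds, val_K, hY, hZ, sub_nil_iff, e0, hy, mul_zero, and_self]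
  obtain ⟨b, hb⟩ := mulBig_complete (x := x) (y := y) (by omega) (by omega)
  refine ⟨b, fun u A Y Z a hA hY hZ ha => Or.inr (Or.inr ⟨?_, ?_, hb u A Y Z a hA hY hZ ha⟩)⟩
  · simp only [WF.Holds, val_K, hA]
    exact (ra_sub (n := 1)).2 (by rw [count_true_ra]; omega)
  · simp only [WF.Holds, val_K, hY]
    exact (ra_sub (n := 1)).2 (by rw [count_true_ra]; omega)

/-- the formula of a constraint, with auxiliary variables from `m` on -/
def mkC : Con → ℕ → WF
  | .add i j l, m => addF (X i) (X j) (X l) (X m) (X (m + 1))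
  | .one i, _ => .and (.sub (X i) (K [true])) (.sub (K [true]) (X i))
  | .mul i j l, m => mulF (X i) (X j) (X l) (fun t => X (m + t))

theorem mkC_sound {k : ℕ} {u : ℕ → List Bool} {x : ℕ → ℕ} (hu : ∀ i < k, u i = ra (x i))
    {c : Con} (hc : c.Below k) {m : ℕ} (h : (mkC c m).Holds u) : c.Holds x := by
  cases c with
  | add i j l =>
    obtain ⟨hi, hj, hl⟩ := hc
    simp only [mkC] at h
    rw [addF_holds (A := X i) (Y := X j) (Z := X l) (x := x i) (y := x j) (z := x l) (hu i hi)
      (hu j hj) (hu l hl)] at h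
    exact (add_iff _ _ _).1 ⟨_, _, h⟩
  | one i =>
    simp only [mkC, WF.Holds, val_X, val_K] at h
    have h1 : u i = [true] := h.1.antisymm h.2
    rw [hu i hc] at h1
    have := congrArg List.length h1
    have h2 : x i = 1 := by simpa using this
    exact h2
  | mul i j l =>
    obtain ⟨hi, hj, hl⟩ := hc
    exact mulF_sound (A := X i) (Y := X j) (Z := X l) (x := x i) (y := x j) (z := x l) (hu i hi)
      (hu j hj) (hu l hl) h

theorem mkC_complete {k : ℕ} {x : ℕ → ℕ} {c : Con} (hc : c.Below k) (h : c.Holds x) (m : ℕ) :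
    ∃ b : ℕ → List Bool, ∀ u : ℕ → List Bool, (∀ i < k, u i = ra (x i)) →
      (∀ t < 14, u (m + t) = b t) → (mkC c m).Holds u := by
  cases c with
  | add i j l =>
    obtain ⟨hi, hj, hl⟩ := hc
    obtain ⟨w, U, hadd⟩ := (add_iff (x i) (x j) (x l)).2 h
    refine ⟨fun t => if t = 0 then w else U, fun u hu ha => ?_⟩
    simp only [mkC]
    rw [addF_holds (A := X i) (Y := X j) (Z := X l) (x := x i) (y := x j) (z := x l) (hu i hi)
      (hu j hj) (hu l hl)]
    have e1 : (X m).val u = w := ha 0 (by omega)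
    have e2 : (X (m + 1)).val u = U := ha 1 (by omega)
    rw [e1, e2]
    exact hadd
  | one i =>
    refine ⟨fun _ => [], fun u hu _ => ?_⟩
    have h1 : u i = [true] := by
      rw [hu i hc, show x i = 1 from h]; rfl
    simp [mkC, WF.Holds, h1]
  | mul i j l =>
    obtain ⟨hi, hj, hl⟩ := hc
    obtain ⟨b, hb⟩ := mulF_complete (x i) (x j)
    refine ⟨b, fun u hu ha => hb u _ _ _ _ (hu i hi) (hu j hj) ?_ ha⟩
    rw [show x i * x j = x l from h]
    exact hu l hl

/-- the formulas of a list of constraints -/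
def build : List Con → ℕ → List WF
  | [], _ => []
  | c :: L, m => mkC c m :: build L (m + 14)

theorem build_sound {k : ℕ} {u : ℕ → List Bool} {x : ℕ → ℕ} (hu : ∀ i < k, u i = ra (x i)) :
    ∀ (L : List Con) (m : ℕ), (∀ c ∈ L, c.Below k) → (∀ φ ∈ build L m, φ.Holds u) →
      ∀ c ∈ L, c.Holds x
  | [], _, _, _ => by simp
  | c :: L, m, hL, h => by
    intro d hd
    rcases List.mem_cons.1 hd with rfl | hd
    · exact mkC_sound (m := m) hu (hL _ (by simp)) (h _ (by simp [build]))
    · exact build_sound hu L (m + 14) (fun c hc => hL c (by simp [hc]))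
        (fun φ hφ => h φ (by simp [build, hφ])) d hd

theorem build_complete {k : ℕ} {x : ℕ → ℕ} : ∀ (L : List Con) (m : ℕ), (∀ c ∈ L, c.Below k) →
    (∀ c ∈ L, c.Holds x) → ∃ b : ℕ → List Bool, ∀ u : ℕ → List Bool,
      (∀ i < k, u i = ra (x i)) → (∀ t, u (m + t) = b t) → ∀ φ ∈ build L m, φ.Holds u
  | [], _, _, _ => ⟨fun _ => [], fun _ _ _ => by simp [build]⟩
  | c :: L, m, hL, h => by
    obtain ⟨b, hb⟩ := mkC_complete (hL c (by simp)) (h c (by simp)) m
    obtain ⟨b', hb'⟩ := build_complete L (m + 14) (fun c hc => hL c (by simp [hc]))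
      (fun c hc => h c (by simp [hc]))
    refine ⟨fun t => if t < 14 then b t else b' (t - 14), fun u hu ha φ hφ => ?_⟩
    simp only [build, List.mem_cons] at hφ
    rcases hφ with rfl | hφ
    · refine hb u hu fun t ht => ?_
      rw [ha]
      exact if_pos ht
    · refine hb' u hu (fun t => ?_) φ hφ
      have := ha (14 + t)
      dsimp only at this
      rw [if_neg (by omega), Nat.add_sub_cancel_left, ← add_assoc] at this
      exact this

/-- Every recursively enumerable set is defined by an existential formula on words. -/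
theorem exists_formula {W : ℕ → Prop} (hW : REPred W) :
    ∃ Φ : WF, ∀ n, W n ↔ ∃ u : ℕ → List Bool, u 0 = ra n ∧ Φ.Holds u := by
  obtain ⟨k, L, hk, hL, h⟩ := exists_sys W hW
  refine ⟨.and (WF.conj ((List.range k).map fun i => .neg (.sub (K [false]) (X i))))
    (WF.conj (build L k)), fun n => ?_⟩
  rw [h n]
  constructor
  · rintro ⟨x, hx, hc⟩
    obtain ⟨b, hb⟩ := build_complete (k := k) L k hL hc
    let u : ℕ → List Bool := fun i => if i < k then ra (x i) else b (i - k)
    have hu : ∀ i < k, u i = ra (x i) := fun i hi => by simp [u, hi]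
    refine ⟨u, by rw [hu 0 (by omega), hx], ?_, ?_⟩
    · rw [holds_conj]
      intro φ hφ
      rw [List.mem_map] at hφ
      obtain ⟨i, hi, rfl⟩ := hφ
      rw [List.mem_range] at hi
      simp only [WF.Holds, val_K, val_X, hu i hi]
      intro h
      have := rb_sub.1 (show rb 1 <+ ra (x i) from h)
      simp at this
    · rw [holds_conj]
      refine hb u hu fun t => ?_
      simp [u]
  · rintro ⟨u, h0, h1, h2⟩
    rw [holds_conj] at h1 h2
    have hA : ∀ i < k, ∃ m, u i = ra m := by
      intro i hi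
      apply not_b
      have := h1 _ (List.mem_map_of_mem (List.mem_range.2 hi))
      simpa [WF.Holds] using this
    choose! x hx using hA
    refine ⟨x, ?_, build_sound hx L k hL h2⟩
    have := hx 0 (by omega)
    rw [h0] at this
    have := congrArg List.length this
    simpa using this.symm

end Pool.Agent.R569.RPO
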