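import Pool.Agent.R569.RPO.Order
import Pool.Agent.R569.RPO.Mult

/-!
# Translation of formulas on words to formulas on terms, and undecidability
-/

set_option autoImplicit false

namespace Pool.Agent.R569.RPO

open List

variable {S : Data} (T : Setup S)

/-- the constant `c` as a term with variables -/
def Setup.cV : VTm S := .app T.c (fun i => (T.fin_c i).elim)

/-- the term `w(t)` for a word `w` -/
def Setup.encV {S : Data} (T : Setup S) : List Bool → VTm S → VTm S
  | [], t => t
  | x :: w, t => .app (T.s x) (fun i => if i = T.last x then T.encV w t else T.cV)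

theorem Setup.eval_cV (v : ℕ → Tm S) : T.cV.eval v = T.cT := T.app_c _

theorem Setup.eval_encV (v : ℕ → Tm S) (t : VTm S) (w' : List Bool) (ht : t.eval v = T.enc w')
    (w : List Bool) : (T.encV w t).eval v = T.enc (w ++ w') := by
  induction w with
  | nil => exact ht
  | cons x w ih =>
    change Tm.app (T.s x) _ = Tm.app (T.s x) _
    congr 1
    funext i
    change (if i = T.last x then T.encV w t else T.cV).eval v =
      if i = T.last x then T.enc (w ++ w') else T.cT
    by_cases hi : i = T.last x
    · rw [if_pos hi, if_pos hi]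
      exact ih
    · rw [if_neg hi, if_neg hi]
      exact T.eval_cV v

/-- translation of word expressions -/
def Setup.trE (e : WE) : VTm S := T.encV e.pre (e.base.elim T.cV VTm.var)

/-- translation of formulas -/
def Setup.tr {S : Data} (T : Setup S) : WF → QF S
  | .sub s t => .or (.gt (T.trE t) (T.trE s)) (.eq (T.trE t) (T.trE s))
  | .neg φ => .neg (T.tr φ)
  | .and φ ψ => .and (T.tr φ) (T.tr ψ)
  | .or φ ψ => .or (T.tr φ) (T.tr ψ)

/-- the variables of a formula -/
def WF.vars : WF → List ℕ
  | .sub s t => s.base.toList ++ t.base.toList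
  | .neg φ => φ.vars
  | .and φ ψ => φ.vars ++ ψ.vars
  | .or φ ψ => φ.vars ++ ψ.vars

theorem Setup.eval_trE (v : ℕ → Tm S) (u : ℕ → List Bool) (e : WE)
    (h : ∀ i ∈ e.base.toList, v i = T.enc (u i)) : (T.trE e).eval v = T.enc (e.val u) := by
  unfold Setup.trE WE.val
  refine T.eval_encV v _ _ ?_ _
  cases hb : e.base with
  | none => exact T.eval_cV v
  | some i => exact h i (by simp [hb])

variable (E : Tm S → Tm S → Prop) (hE1 : ∀ s, E s s) (hE2 : ∀ s t, E s t → Eqv s t)

include hE1 hE2 in
theorem Setup.tr_holds (v : ℕ → Tm S) (u : ℕ → List Bool) : ∀ φ : WF,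
    (∀ i ∈ φ.vars, v i = T.enc (u i)) → ((T.tr φ).Holds E v ↔ φ.Holds u)
  | .sub s t, h => by
    have hs := T.eval_trE v u s (fun i hi => h i (by simp [WF.vars, hi]))
    have ht := T.eval_trE v u t (fun i hi => h i (by simp [WF.vars, hi]))
    simp only [Setup.tr, QF.Holds, hs, ht, WF.Holds]
    exact T.le_iff E hE2 hE1 _ _
  | .neg φ, h => not_congr (Setup.tr_holds v u φ h)
  | .and φ ψ, h => and_congr (Setup.tr_holds v u φ fun i hi => h i (by simp [WF.vars, hi]))
      (Setup.tr_holds v u ψ fun i hi => h i (by simp [WF.vars, hi]))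
  | .or φ ψ, h => or_congr (Setup.tr_holds v u φ fun i hi => h i (by simp [WF.vars, hi]))
      (Setup.tr_holds v u ψ fun i hi => h i (by simp [WF.vars, hi]))

open Classical in
/-- finitely many terms which are not terms of words -/
noncomputable def Setup.bad : List (VTm S) :=
  (((Finset.univ : Finset ((h : Fin S.n) × (Fin (S.ar h) → Option Bool))).filter
    (fun p => ¬ T.W (.app p.1 fun i => T.enc (optw (p.2 i))))).toList).map
    (fun p => .app p.1 fun i => T.encV (optw (p.2 i)) T.cV)

/-- conjunction of a list -/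
def Setup.conj : List (QF S) → QF S
  | [] => .eq T.cV T.cV
  | φ :: L => .and φ (Setup.conj L)

theorem Setup.holds_conj (v : ℕ → Tm S) (L : List (QF S)) :
    (T.conj L).Holds E v ↔ ∀ φ ∈ L, φ.Holds E v := by
  induction L with
  | nil => simp [Setup.conj, QF.Holds]
  | cons φ L ih => simp [Setup.conj, QF.Holds, ih]

/-- the formula saying that the value of the variable `i` is the term of a word -/
noncomputable def Setup.guard (i : ℕ) : QF S :=
  T.conj (T.bad.map fun b => .neg (.or (.gt (.var i) b) (.eq (.var i) b)))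

include hE1 hE2 in
theorem Setup.guard_holds (v : ℕ → Tm S) (i : ℕ) : (T.guard i).Holds E v ↔ T.W (v i) := by
  classical
  have hev : ∀ (h : Fin S.n) (p : Fin (S.ar h) → Option Bool),
      (VTm.app h fun i => T.encV (optw (p i)) T.cV).eval v =
        .app h fun i => T.enc (optw (p i)) := by
    intro h p
    simp only [VTm.eval]
    congr 1
    funext i
    have := T.eval_encV v T.cV [] (T.eval_cV v) (optw (p i))
    rw [List.append_nil] at this
    exact this
  unfold Setup.guard
  rw [T.holds_conj]
  constructor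
  · intro h
    by_contra hW
    obtain ⟨f, p, h1, h2⟩ := T.exists_bad E hE1 _ hW
    have hmem : (VTm.app f fun i => T.encV (optw (p i)) T.cV) ∈ T.bad := by
      unfold Setup.bad
      rw [List.mem_map]
      refine ⟨⟨f, p⟩, ?_, rfl⟩
      rw [Finset.mem_toList, Finset.mem_filter]
      exact ⟨Finset.mem_univ _, h1⟩
    have h3 := h _ (List.mem_map_of_mem hmem)
    simp only [QF.Holds, hev] at h3
    exact h3 h2.symm
  · rintro ⟨w, hw⟩ φ hφ
    rw [List.mem_map] at hφ
    obtain ⟨b, hb, rfl⟩ := hφ
    unfold Setup.bad at hb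
    rw [List.mem_map] at hb
    obtain ⟨⟨f, p⟩, hp, rfl⟩ := hb
    rw [Finset.mem_toList, Finset.mem_filter] at hp
    simp only [QF.Holds, hev]
    change ¬ (Gt E (v i) _ ∨ v i = _)
    rw [hw]
    rintro (h1 | h1)
    · obtain ⟨w', h2, _⟩ := T.gt_enc E hE2 w _ h1
      exact hp.2 ⟨w', h2⟩
    · exact hp.2 ⟨w, h1.symm⟩

/-- the `n`-th formula -/
noncomputable def Setup.form (Φ : WF) (n : ℕ) : QF S :=
  .and (.and (T.conj (Φ.vars.map T.guard)) (T.tr Φ)) (.eq (.var 0) (T.encV (ra n) T.cV))

include hE1 hE2 in
theorem Setup.form_iff (Φ : WF) (n : ℕ) :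
    (T.form Φ n).ExTrue E ↔ ∃ u : ℕ → List Bool, u 0 = ra n ∧ Φ.Holds u := by
  classical
  have hn : ∀ v : ℕ → Tm S, (T.encV (ra n) T.cV).eval v = T.enc (ra n) := by
    intro v
    have := T.eval_encV v T.cV [] (T.eval_cV v) (ra n)
    rw [List.append_nil] at this
    exact this
  constructor
  · rintro ⟨v, ⟨h1, h2⟩, h3⟩
    have h3' : v 0 = (T.encV (ra n) T.cV).eval v := h3
    rw [hn] at h3'
    rw [T.holds_conj] at h1
    have hW : ∀ i ∈ Φ.vars, T.W (v i) := fun i hi =>
      (T.guard_holds E hE1 hE2 v i).1 (h1 _ (List.mem_map_of_mem hi))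
    let u : ℕ → List Bool := fun i => if h : T.W (v i) then h.choose else []
    have hu : ∀ i, T.W (v i) → v i = T.enc (u i) := by
      intro i hi
      have : u i = hi.choose := dif_pos hi
      rw [this]
      exact hi.choose_spec
    refine ⟨u, ?_, (T.tr_holds E hE1 hE2 v u Φ fun i hi => hu i (hW i hi)).1 h2⟩
    have h4 := hu 0 ⟨_, h3'⟩
    rw [h3'] at h4
    exact (T.enc_inj h4).symm
  · rintro ⟨u, h0, h⟩
    refine ⟨fun i => T.enc (u i), ⟨?_, ?_⟩, ?_⟩
    · rw [T.holds_conj]
      intro φ hφ
      rw [List.mem_map] at hφ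
      obtain ⟨i, _, rfl⟩ := hφ
      exact (T.guard_holds E hE1 hE2 _ i).2 ⟨_, rfl⟩
    · exact (T.tr_holds E hE1 hE2 _ u Φ fun i _ => rfl).2 h
    · change T.enc (u 0) = _
      rw [hn, h0]

/-! ### computability -/

/-- the code of `f(c, …, c, t)` from the code of `t` -/
def Setup.step (x : ℕ) : ℕ :=
  Nat.pair 1 (Nat.pair (T.s true) (Encodable.encode
    (List.replicate (S.ar (T.s true) - 1) T.cV.code ++ [x])))

theorem ofFn_last (n : ℕ) (hn : 0 < n) (x y : ℕ) :
    List.ofFn (fun i : Fin n => if i = ⟨n - 1, Nat.sub_lt hn Nat.one_pos⟩ then x else y) =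
      List.replicate (n - 1) y ++ [x] := by
  apply List.ext_getElem
  · simp; omega
  · intro i h1 h2
    rw [List.getElem_ofFn]
    have h3 : i < n := by simpa using h1
    by_cases hi : i = n - 1
    · subst hi
      rw [if_pos rfl, List.getElem_append_right (by simp)]
      simp
    · rw [if_neg (by
        intro h
        exact hi (by simpa using congrArg Fin.val h))]
      rw [List.getElem_append_left (by simp; omega)]
      simp

theorem Setup.code_num (n : ℕ) : (T.encV (ra n) T.cV).code = T.step^[n] T.cV.code := by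
  induction n with
  | zero => rfl
  | succ n ih =>
    rw [Function.iterate_succ_apply', ← ih]
    have h1 : (fun i => (if i = T.last true then T.encV (ra n) T.cV else T.cV).code) =
        fun i : Fin (S.ar (T.s true)) =>
          if i = T.last true then (T.encV (ra n) T.cV).code else T.cV.code := by
      funext i
      split_ifs <;> rfl
    have h2 : (T.encV (ra (n + 1)) T.cV).code = Nat.pair 1 (Nat.pair (T.s true) (Encodable.encode
        (List.ofFn fun i => (if i = T.last true then T.encV (ra n) T.cV else T.cV).code))) := rfl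
    rw [h2, h1]
    unfold Setup.step
    congr 3
    exact ofFn_last _ (T.hpos true) _ _

theorem Setup.step_primrec : Primrec T.step := by
  unfold Setup.step
  refine Primrec₂.natPair.comp (Primrec.const _) (Primrec₂.natPair.comp (Primrec.const _)
    (Primrec.encode.comp (Primrec.list_append.comp (Primrec.const _) ?_)))
  exact Primrec.list_cons.comp Primrec.id (Primrec.const _)

theorem Setup.code_computable (Φ : WF) : Computable fun n => (T.form Φ n).code := by
  have h1 : Primrec fun n : ℕ => T.step^[n] T.cV.code :=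
    Primrec.nat_iterate Primrec.id (Primrec.const _) (T.step_primrec.comp₂ Primrec₂.right)
  have h2 : (fun n => (T.form Φ n).code) = fun n =>
      Nat.pair 3 (Nat.pair (QF.and (T.conj (Φ.vars.map T.guard)) (T.tr Φ)).code
        (Nat.pair 0 (Nat.pair (VTm.var (S := S) 0).code (T.step^[n] T.cV.code)))) := by
    funext n
    rw [← T.code_num]
    rfl
  rw [h2]
  exact (Primrec₂.natPair.comp (Primrec.const _) (Primrec₂.natPair.comp (Primrec.const _)
    (Primrec₂.natPair.comp (Primrec.const _) (Primrec₂.natPair.comp (Primrec.const _) h1)))).to_comp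

include T hE1 hE2 in
/-- Every recursively enumerable set is many-one reducible to the existential theory. -/
theorem Setup.reduction {W : ℕ → Prop} (hW : REPred W) :
    ∃ φ : ℕ → QF S, (Computable fun n => (φ n).code) ∧ ∀ n, W n ↔ (φ n).ExTrue E := by
  obtain ⟨Φ, hΦ⟩ := exists_formula hW
  exact ⟨T.form Φ, T.code_computable Φ, fun n => by rw [hΦ n, T.form_iff E hE1 hE2]⟩

/-- the halting set -/
def haltSet (a : ℕ) : Prop := (Nat.Partrec.Code.eval (Denumerable.ofNat Nat.Partrec.Code a) 0).Dom

theorem haltSet_re : REPred haltSet := by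
  have h : Partrec fun a : ℕ => Nat.Partrec.Code.eval (Denumerable.ofNat Nat.Partrec.Code a) 0 :=
    Nat.Partrec.Code.eval_part.comp (Primrec.ofNat Nat.Partrec.Code).to_comp (Computable.const 0)
  exact h.dom_re

theorem haltSet_not_computable : ¬ ComputablePred haltSet := by
  intro h
  apply ComputablePred.halting_problem 0
  obtain ⟨inst, hc⟩ := h
  have h2 : Computable fun c : Nat.Partrec.Code => decide (haltSet (Encodable.encode c)) :=
    hc.comp Computable.encode
  refine ⟨fun c => Classical.dec _, h2.of_eq fun c => ?_⟩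
  have h3 : haltSet (Encodable.encode c) ↔ (Nat.Partrec.Code.eval c 0).Dom := by
    unfold haltSet
    rw [Denumerable.ofNat_encode]
  exact decide_eq_decide.2 h3

include T hE1 hE2 in
theorem Setup.undecidable : ¬ ExDecidable S E := by
  rintro ⟨D, hD, h⟩
  obtain ⟨φ, hφ, h1⟩ := T.reduction E hE1 hE2 haltSet_re
  apply haltSet_not_computable
  refine ComputablePred.computable_of_manyOneReducible (q := D) ⟨fun n => (φ n).code, hφ, ?_⟩ hD
  intro n
  exact (h1 n).trans (h (φ n)).symm

end Pool.Agent.R569.RPO
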