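import Mathlib

/-!
# Subwords over the two letter alphabet

Lemmas on the scattered subword relation on `List Bool` (`true` is the letter `a`, `false` the letter
`b`).
-/

set_option autoImplicit false

namespace Pool.Agent.R569.RPO

open List

/-- `a ^ n` -/
abbrev ra (n : ℕ) : List Bool := replicate n true
/-- `b ^ n` -/
abbrev rb (n : ℕ) : List Bool := replicate n false

theorem ra_sub {n : ℕ} {w : List Bool} : ra n <+ w ↔ n ≤ w.count true :=
  replicate_sublist_iff

theorem rb_sub {n : ℕ} {w : List Bool} : rb n <+ w ↔ n ≤ w.count false :=
  replicate_sublist_iff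

theorem cons_ra (n : ℕ) : true :: ra n = ra (n + 1) := rfl
theorem cons_rb (n : ℕ) : false :: rb n = rb (n + 1) := rfl

theorem eq_ra_of_count : ∀ {w : List Bool}, w.count false = 0 → w = ra (w.count true)
  | [], _ => rfl
  | true :: w, h => by
    have h1 : w.count false = 0 := by simpa using h
    have h2 := eq_ra_of_count h1
    rw [List.count_cons_self]
    conv_lhs => rw [h2]
    rfl
  | false :: w, h => by simp at h

theorem eq_rb_of_count : ∀ {w : List Bool}, w.count true = 0 → w = rb (w.count false)
  | [], _ => rfl
  | false :: w, h => by
    have h1 : w.count true = 0 := by simpa using h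
    have h2 := eq_rb_of_count h1
    rw [List.count_cons_self]
    conv_lhs => rw [h2]
    rfl
  | true :: w, h => by simp at h

theorem length_count (w : List Bool) : w.length = w.count true + w.count false := by
  induction w with
  | nil => rfl
  | cons x w ih =>
    rw [List.length_cons, ih]
    cases x <;> simp <;> omega

@[simp] theorem count_false_ra (n : ℕ) : (ra n).count false = 0 := by
  simp [List.count_replicate]

@[simp] theorem count_true_rb (n : ℕ) : (rb n).count true = 0 := by
  simp [List.count_replicate]

@[simp] theorem count_true_ra (n : ℕ) : (ra n).count true = n := by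
  simp

@[simp] theorem count_false_rb (n : ℕ) : (rb n).count false = n := by
  simp

theorem b_cons_sub {l v : List Bool} : ∀ {m : ℕ}, false :: l <+ ra m ++ v → false :: l <+ v
  | 0, h => h
  | m + 1, h => by
    have h' : false :: l <+ true :: (ra m ++ v) := h
    cases h' with
    | cons _ h => exact b_cons_sub h

/-- decomposition at the first `b` -/
theorem first_b {w : List Bool} (h : w.count false ≠ 0) :
    ∃ g s, w = ra g ++ false :: s ∧ s.count false + 1 = w.count false := by
  induction w with
  | nil => simp at h
  | cons x w ih =>
    cases x
    · exact ⟨0, w, rfl, by simp⟩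
    · have h' : w.count false ≠ 0 := by simpa using h
      obtain ⟨g, s, h1, h2⟩ := ih h'
      refine ⟨g + 1, s, ?_, ?_⟩
      · conv_lhs => rw [h1]
        rfl
      · simpa using h2

/-- decomposition at the last `b` -/
theorem last_b {w : List Bool} (h : w.count false ≠ 0) :
    ∃ s g, w = s ++ false :: ra g ∧ s.count false + 1 = w.count false := by
  have h' : w.reverse.count false ≠ 0 := by simpa using h
  obtain ⟨g, s, h1, h2⟩ := first_b h'
  refine ⟨s.reverse, g, ?_, by simpa using h2⟩
  have := congrArg List.reverse h1
  simpa using this

/-- alignment of words with equally many `b`s -/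
theorem align {g h : ℕ} {s t : List Bool} (hst : t.count false ≤ s.count false)
    (H : ra g ++ false :: s <+ ra h ++ false :: t) : g ≤ h ∧ s <+ t := by
  induction h generalizing g with
  | zero =>
    cases g with
    | zero =>
      exact ⟨le_rfl, by simpa using H⟩
    | succ g =>
      exfalso
      have h1 : ra (g + 1) ++ false :: s <+ t := by
        have : true :: (ra g ++ false :: s) <+ false :: t := H
        cases this with
        | cons _ h => exact h
      have h2 := h1.count_le false
      simp at h2
      omega
  | succ h ih =>
    cases g with
    | zero =>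
      have : false :: s <+ true :: (ra h ++ false :: t) := H
      cases this with
      | cons _ h' =>
        obtain ⟨_, h2⟩ := ih (g := 0) h'
        exact ⟨Nat.zero_le _, h2⟩
    | succ g =>
      have : true :: (ra g ++ false :: s) <+ true :: (ra h ++ false :: t) := H
      rw [List.cons_sublist_cons] at this
      obtain ⟨h1, h2⟩ := ih this
      exact ⟨by omega, h2⟩

/-- `(a ^ x b) ^ k` -/
def pw (x : ℕ) : ℕ → List Bool
  | 0 => []
  | k + 1 => ra x ++ false :: pw x k

theorem pw_count_b (x k : ℕ) : (pw x k).count false = k := by
  induction k with
  | zero => rfl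
  | succ k ih => simp [pw, ih, List.count_replicate]

theorem pw_count_a (x k : ℕ) : (pw x k).count true = x * k := by
  induction k with
  | zero => rfl
  | succ k ih => simp [pw, ih, List.count_replicate]; ring

theorem pw_snoc (x k : ℕ) : pw x (k + 1) = pw x k ++ (ra x ++ [false]) := by
  induction k with
  | zero => simp [pw]
  | succ k ih =>
    change ra x ++ false :: pw x (k + 1) = (ra x ++ false :: pw x k) ++ (ra x ++ [false])
    rw [ih]
    simp

/-- `b ^ k a ⊑ w` says that some `a` comes after the `k`-th `b` -/
theorem not_Q {w : List Bool} {k : ℕ} (hk : w.count false = k) (h : ¬ rb k ++ [true] <+ w) :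
    k = 0 ∧ w = [] ∨ ∃ s, w = s ++ [false] ∧ s.count false + 1 = k := by
  by_cases h0 : k = 0
  · left
    subst h0
    refine ⟨rfl, ?_⟩
    have h1 := eq_ra_of_count hk
    rw [h1] at h
    cases hw : w.count true with
    | zero => rw [h1, hw]; rfl
    | succ m =>
      exfalso
      apply h
      rw [hw]
      simp [List.replicate_succ]
  · right
    obtain ⟨s, g, h1, h2⟩ := last_b (w := w) (by omega)
    cases g with
    | zero => exact ⟨s, h1, by omega⟩
    | succ g =>
      exfalso
      apply h
      rw [h1]
      have h3 : rb k ++ [true] = rb (k - 1) ++ (false :: [true]) := by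
        have : k = (k - 1) + 1 := by omega
        conv_lhs => rw [this, show rb (k - 1 + 1) = rb (k - 1) ++ [false] from
          List.replicate_succ']
        simp
      rw [h3]
      refine List.Sublist.append ?_ ?_
      · rw [rb_sub]; omega
      · simp [List.replicate_succ]

theorem shape_R {R : List Bool} {x k : ℕ} (hx : 1 ≤ x) (ha : R.count true = x)
    (hb : R.count false = k) (h1 : ¬ [true, false, true] <+ R) (h2 : ¬ [true, false, false] <+ R)
    (h3 : [true, false] <+ R) : 1 ≤ k ∧ R = rb (k - 1) ++ (ra x ++ [false]) := by
  induction R generalizing k with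
  | nil => simp at ha; omega
  | cons y R ih =>
    cases y
    · have h3' : [true, false] <+ R := by
        cases h3 with
        | cons _ h => exact h
      have e1 : R.count true = x := by simpa using ha
      have e2 : R.count false = k - 1 := by
        simp at hb; omega
      obtain ⟨hk, hR⟩ := ih e1 e2 (fun h => h1 (h.trans (List.sublist_cons_self _ _)))
        (fun h => h2 (h.trans (List.sublist_cons_self _ _))) h3'
      refine ⟨by omega, ?_⟩
      conv_lhs => rw [hR]
      rw [← List.cons_append, cons_rb]
      congr 2
      omega
    · -- R = a R', R' has a b, all a's come before the first b, only one b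
      have h4 : [false] <+ R := by
        rw [List.cons_sublist_cons] at h3
        exact h3
      have h5 : R.count false ≠ 0 := by
        intro h
        rw [List.count_eq_zero] at h
        exact h (List.singleton_sublist.1 h4)
      obtain ⟨g, s, h6, h7⟩ := first_b h5
      have h8 : s = [] := by
        rcases s with _ | ⟨z, s⟩
        · rfl
        · exfalso
          cases z
          · apply h2
            rw [List.cons_sublist_cons, h6]
            refine List.Sublist.trans ?_ (List.sublist_append_right _ _)
            simp
          · apply h1
            rw [List.cons_sublist_cons, h6]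
            refine List.Sublist.trans ?_ (List.sublist_append_right _ _)
            simp
      subst h8
      have h9 : k = 1 := by
        rw [← hb]
        simp at h7 ⊢
        omega
      subst h9
      refine ⟨le_rfl, ?_⟩
      rw [h6] at ha ⊢
      simp [List.count_replicate] at ha
      subst ha
      simp [List.replicate_succ]

theorem shape_ab {w : List Bool} {x k : ℕ} (ha : w.count true = x) (hb : w.count false = k)
    (h1 : ¬ [false, true] <+ w) : w = ra x ++ rb k := by
  induction w generalizing x k with
  | nil => simp at ha hb; subst ha hb; rfl
  | cons y w ih =>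
    cases y
    · have h2 : w.count true = 0 := by
        by_contra h
        apply h1
        rw [List.cons_sublist_cons, List.singleton_sublist]
        exact List.count_pos_iff.1 (Nat.pos_of_ne_zero h)
      have h3 := eq_rb_of_count h2
      have h4 : x = 0 := by rw [← ha]; simp [h2]
      subst h4
      simp at hb
      rw [h3]
      subst hb
      rfl
    · simp at ha hb
      obtain ⟨x, rfl⟩ : ∃ x', x = x' + 1 := ⟨x - 1, by omega⟩
      rw [ih (x := x) (k := k) (by omega) hb
        (fun h => h1 (h.trans (List.sublist_cons_self _ _)))]
      rfl

theorem shape_ba {w : List Bool} {k : ℕ} (ha : w.count true = 1) (hb : w.count false = k)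
    (h1 : ¬ [true, false] <+ w) : w = rb k ++ [true] := by
  induction w generalizing k with
  | nil => simp at ha
  | cons y w ih =>
    cases y
    · simp at ha hb
      obtain ⟨k, rfl⟩ : ∃ k', k = k' + 1 := ⟨k - 1, by omega⟩
      rw [ih (k := k) ha (by omega) (fun h => h1 (h.trans (List.sublist_cons_self _ _)))]
      rfl
    · have h2 : w.count false = 0 := by
        by_contra h
        apply h1
        rw [List.cons_sublist_cons, List.singleton_sublist]
        exact List.count_pos_iff.1 (Nat.pos_of_ne_zero h)
      have h3 : w.count true = 0 := by simpa using ha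
      have h4 := length_count w
      rw [h2, h3] at h4
      have h5 := List.eq_nil_of_length_eq_zero h4
      subst h5
      simp at hb
      subst hb
      rfl

/-- soundness of the description of `w b` -/
theorem shape_V2 {w V : List Bool} {k : ℕ} (hk : w.count false = k)
    (hw : ∃ s, w = s ++ [true, false]) (h1 : w <+ V) (hb : V.count false = k + 1)
    (ha : V.count true = w.count true) (h2 : ¬ rb k ++ [true] <+ V) : V = w ++ [false] := by
  obtain ⟨s, rfl⟩ := hw
  have hk0 : 1 ≤ k := by rw [← hk]; simp
  -- V ends with b
  obtain ⟨t, g, h3, h4⟩ := last_b (w := V) (by omega)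
  have hg : g = 0 := by
    by_contra hg
    apply h2
    rw [h3]
    refine List.Sublist.append ?_ ?_
    · rw [rb_sub]; omega
    · refine (List.singleton_sublist.2 ?_)
      simp [hg]
  subst hg
  -- t ends with b
  obtain ⟨t', g, h5, h6⟩ := last_b (w := t) (by omega)
  have hg : g = 0 := by
    by_contra hg
    apply h2
    rw [h3, h5, List.append_assoc]
    obtain ⟨k', rfl⟩ : ∃ k', k = k' + 1 := ⟨k - 1, by omega⟩
    rw [show rb (k' + 1) = rb k' ++ [false] from List.replicate_succ', List.append_assoc]
    refine List.Sublist.append ?_ ?_
    · rw [rb_sub]; omega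
    · simp only [List.singleton_append, List.cons_append, List.cons_sublist_cons]
      refine (List.singleton_sublist.2 ?_)
      simp [hg]
  subst hg
  simp only [List.replicate_zero] at h3 h5
  have hlen : t.length = (s ++ [true, false]).length := by
    have e1 := length_count t
    have e2 := length_count (s ++ [true, false])
    rw [h3] at hb ha
    simp only [List.count_append, List.count_singleton] at hb ha
    simp at hb ha
    rw [e1, e2, hk]
    simp at ha ⊢
    omega
  rw [h3] at h1
  obtain ⟨u1, u2, h7, h8, h9⟩ := List.sublist_append_iff.1 h1
  have : u2 = [] ∨ u2 = [false] := by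
    rcases u2 with _ | ⟨z, u2⟩
    · exact Or.inl rfl
    · right
      have h10 : z :: u2 <+ [false] := h9
      have h11 := h10.length_le
      simp at h11
      subst h11
      have := List.singleton_sublist.1 h10
      simp at this
      rw [this]
  rw [h3]
  congr 1
  rcases this with rfl | rfl
  · rw [List.append_nil] at h7
    rw [h7] at hlen ⊢
    exact (h8.eq_of_length hlen.symm).symm
  · have h10 : s ++ [true] = u1 := by
      have : (s ++ [true]) ++ [false] = u1 ++ [false] := by simpa using h7
      exact List.append_cancel_right this
    subst h10
    rw [h5] at h8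
    obtain ⟨v1, v2, h11, h12, h13⟩ := List.sublist_append_iff.1 h8
    have h14 : v2 = [] := by
      rcases List.eq_nil_or_concat v2 with h | ⟨v, z, h⟩
      · exact h
      · exfalso
        rw [h] at h11 h13
        have h15 : [z] <+ [false] := (List.sublist_append_right _ _).trans (by simpa using h13)
        have h16 := List.singleton_sublist.1 h15
        simp only [List.mem_singleton] at h16
        subst h16
        have h17 := congrArg List.getLast? h11
        simp at h17
    rw [h14, List.append_nil] at h11
    subst h11
    have h15 : t'.length = (s ++ [true]).length := by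
      rw [h5] at hlen
      simp at hlen ⊢
      omega
    have h16 := h12.eq_of_length h15.symm
    rw [h5, ← h16]
    simp

/-- soundness of the description of `a ^ x b w` -/
theorem shape_v {w v : List Bool} {x k : ℕ} (hk : w.count false = k)
    (h1 : false :: w <+ v) (hb : v.count false = k + 1) (ha : v.count true = w.count true + x)
    (h2 : ra x ++ rb (k + 1) <+ v) : v = ra x ++ false :: w := by
  obtain ⟨v1, v2, h3, h4, h5⟩ := List.append_sublist_iff.1 h2
  subst h3
  rw [ra_sub] at h4
  rw [rb_sub] at h5
  simp only [List.count_append] at hb ha
  have h6 : v1.count false = 0 := by omega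
  have h7 := eq_ra_of_count h6
  have h8 : false :: w <+ v2 := by
    rw [h7] at h1
    exact b_cons_sub h1
  have h9 := h8.count_le true
  have h10 := h8.count_le false
  simp at h9 h10
  have h11 : v1.count true = x := by omega
  rw [h7, h11]
  congr 1
  refine (h8.eq_of_length ?_).symm
  have e1 := length_count (false :: w)
  have e2 := length_count v2
  simp only [List.count_cons_self, List.count_cons_of_ne (by decide : false ≠ true)] at e1
  omega

/-- the main induction: all blocks have length `x` -/
theorem all_blocks {x : ℕ} : ∀ (k : ℕ) (x0 : ℕ) (w : List Bool), w.count false = k → x0 ≤ x →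
    w ++ [false] <+ ra x0 ++ false :: w → (¬ rb k ++ [true] <+ w) →
    (1 ≤ k → rb (k - 1) ++ (ra x ++ [false]) <+ w) → w = pw x k ∧ (1 ≤ k → x0 = x) := by
  intro k
  induction k with
  | zero =>
    intro x0 w hk _ _ hQ _
    rcases not_Q hk hQ with ⟨_, h⟩ | ⟨s, _, h⟩
    · exact ⟨h, by omega⟩
    · omega
  | succ k ih =>
    intro x0 w hk hx0 hV hQ hR
    obtain ⟨g, w1, h1, h2⟩ := first_b (w := w) (by omega)
    have hk1 : w1.count false = k := by omega
    subst h1
    rw [List.append_assoc, List.cons_append] at hV
    obtain ⟨h3, h4⟩ := align (by simp [hk1, List.count_append]) hV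
    have hR' := hR (by omega)
    have hQ1 : ¬ rb k ++ [true] <+ w1 := by
      intro h
      apply hQ
      refine List.Sublist.trans ?_ (List.sublist_append_right _ _)
      rw [← cons_rb, List.cons_append, List.cons_sublist_cons]
      exact h
    rcases Nat.eq_zero_or_pos k with hk0 | hk0
    · subst hk0
      have h5 : ra x ++ false :: [] <+ ra g ++ false :: w1 := by simpa using hR'
      obtain ⟨h6, _⟩ := align (by simp [hk1]) h5
      have hg : g = x := by omega
      subst hg
      rcases not_Q hk1 hQ1 with ⟨_, h⟩ | ⟨s, _, h⟩
      · subst h
        exact ⟨rfl, fun _ => by omega⟩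
      · omega
    · have h5 : ra 0 ++ false :: (rb (k - 1) ++ (ra x ++ [false])) <+ ra g ++ false :: w1 := by
        have : rb (k + 1 - 1) = false :: rb (k - 1) := by
          rw [cons_rb]
          congr 1
          omega
        rw [this] at hR'
        exact hR'
      obtain ⟨_, h6⟩ := align (by
        simp [hk1, List.count_replicate]
        omega) h5
      obtain ⟨h7, h8⟩ := ih g w1 hk1 (by omega) h4 hQ1 (fun _ => h6)
      have hg := h8 hk0
      subst hg
      refine ⟨by rw [h7]; rfl, fun _ => by omega⟩

/-! ### facts on `pw` used for completeness -/

theorem pw_ends {x k : ℕ} (hk : 1 ≤ k) : ∃ s, pw x k = s ++ [false] ∧ s.count false + 1 = k := by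
  obtain ⟨k, rfl⟩ : ∃ k', k = k' + 1 := ⟨k - 1, by omega⟩
  refine ⟨pw x k ++ ra x, ?_, ?_⟩
  · rw [pw_snoc]; simp
  · simp [pw_count_b, List.count_replicate]

theorem not_Q_of_ends {s : List Bool} {k : ℕ} (hs : s.count false + 1 ≤ k) :
    ¬ rb k ++ [true] <+ s ++ [false] := by
  intro h
  obtain ⟨u1, u2, h7, h8, h9⟩ := List.append_sublist_iff.1 h
  have h10 := rb_sub.1 h8
  rcases List.eq_nil_or_concat u2 with h2 | ⟨v, z, h2⟩
  · subst h2
    simp at h9
  · rw [h2, List.concat_eq_append, ← List.append_assoc] at h7
    have h11 : s = u1 ++ v := by
      have := congrArg List.dropLast h7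
      simpa using this
    have h12 := congrArg (List.count false) h11
    simp at h12
    omega

end Pool.Agent.R569.RPO
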