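import Pool.Agent.R569.RPO.Defs
import Pool.Agent.R569.RPO.Lists

/-!
# The recursive path ordering on words over two minimal symbols is the subword ordering
-/

set_option autoImplicit false

namespace Pool.Agent.R569.RPO

open List

/-- The hypotheses of the theorem: a minimal constant `c` and two different symbols `s true`,
`s false` of positive arity, of arity one or with status lex, such that no symbol except possibly
`c` is smaller than one of them. -/
structure Setup (S : Data) where
  c : Fin S.n
  s : Bool → Fin S.n
  hc : S.ar c = 0
  hcmin : ∀ h, ¬ S.prec c h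
  hne : s true ≠ s false
  hpos : ∀ x, 0 < S.ar (s x)
  hst : ∀ x, S.lex (s x) = true ∨ S.ar (s x) = 1
  hmin : ∀ x h, S.prec (s x) h → h = c

variable {S : Data} (T : Setup S)

theorem Setup.inj {x y : Bool} (h : T.s x = T.s y) : x = y := by
  have := T.hne
  cases x <;> cases y
  · rfl
  · exact absurd h.symm this
  · exact absurd h this
  · rfl

theorem Setup.ne_c (x : Bool) : T.s x ≠ T.c := by
  intro h
  have h1 := T.hpos x
  rw [h, T.hc] at h1
  exact absurd h1 (lt_irrefl _)

/-- the last argument position -/
def Setup.last (x : Bool) : Fin (S.ar (T.s x)) :=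
  ⟨S.ar (T.s x) - 1, Nat.sub_lt (T.hpos x) Nat.one_pos⟩

theorem Setup.lt_last {x : Bool} {i : Fin (S.ar (T.s x))} (h : i ≠ T.last x) : i < T.last x := by
  have h1 := i.2
  have h2 : (i : ℕ) ≠ S.ar (T.s x) - 1 := fun h3 => h (Fin.ext h3)
  rw [Fin.lt_def]
  change (i : ℕ) < S.ar (T.s x) - 1
  omega

theorem Setup.fin_c (i : Fin (S.ar T.c)) : False := by
  have h1 := i.2
  have h2 := T.hc
  omega

/-- the constant as a term -/
def Setup.cT : Tm S := .app T.c (fun i => (T.fin_c i).elim)

/-- the term `f(c, …, c, t)` -/
def Setup.ctx (x : Bool) (t : Tm S) : Tm S :=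
  .app (T.s x) (fun i => if i = T.last x then t else T.cT)

/-- the term of a word -/
def Setup.enc {S : Data} (T : Setup S) : List Bool → Tm S
  | [] => T.cT
  | x :: w => T.ctx x (T.enc w)

theorem Setup.app_c (ts : Fin (S.ar T.c) → Tm S) : Tm.app T.c ts = T.cT := by
  unfold Setup.cT
  congr 1
  funext i
  exact (T.fin_c i).elim

theorem Eqv.refl : ∀ t : Tm S, Eqv t t
  | .app f ts => .app f ts ts 1 (fun _ => rfl) (fun i => Eqv.refl (ts i))

theorem Setup.enc_inj : Function.Injective T.enc := by
  intro u
  induction u with
  | nil =>
    intro v h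
    cases v with
    | nil => rfl
    | cons y v =>
      simp only [Setup.enc, Setup.cT, Setup.ctx, Tm.app.injEq] at h
      exact absurd h.1.symm (T.ne_c y)
  | cons x u ih =>
    intro v h
    cases v with
    | nil =>
      simp only [Setup.enc, Setup.cT, Setup.ctx, Tm.app.injEq] at h
      exact absurd h.1 (T.ne_c x)
    | cons y v =>
      have h1 : x = y := by
        simp only [Setup.enc, Setup.ctx, Tm.app.injEq] at h
        exact T.inj h.1
      subst h1
      simp only [Setup.enc, Setup.ctx, Tm.app.injEq, heq_eq_eq, true_and] at h
      have h2 := congrFun h (T.last x)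
      simp only [if_true] at h2
      rw [ih h2]

theorem Setup.eqv_enc (w : List Bool) : ∀ t, Eqv (T.enc w) t → t = T.enc w := by
  induction w with
  | nil =>
    intro t h
    unfold Setup.enc Setup.cT at h
    cases h with
    | app _ _ ts σ hσ h => exact T.app_c ts
  | cons x w ih =>
    intro t h
    have hc : ∀ t, Eqv T.cT t → t = T.cT := by
      intro t h
      unfold Setup.cT at h
      cases h with
      | app _ _ ts σ hσ h => exact T.app_c ts
    unfold Setup.enc Setup.ctx at h
    cases h with
    | app _ _ ts σ hσ h =>
      have h1 : σ = 1 := by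
        rcases T.hst x with h1 | h1
        · exact hσ h1
        · have : Subsingleton (Fin (S.ar (T.s x))) := by
            rw [h1]; infer_instance
          exact Subsingleton.elim _ _
      subst h1
      unfold Setup.enc Setup.ctx
      congr 1
      funext i
      have h2 := h i
      simp only [Equiv.Perm.coe_one, id_eq] at h2
      split_ifs at h2 ⊢
      · exact ih _ h2
      · exact hc _ h2

variable (E : Tm S → Tm S → Prop)

theorem Setup.not_c_gt (t : Tm S) : ¬ Gt E T.cT t := by
  intro h
  unfold Setup.cT at h
  cases h with
  | subEq _ _ _ i h => exact T.fin_c i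
  | subGt _ _ _ i h => exact T.fin_c i
  | prec _ g _ ts h h' => exact T.hcmin g h
  | lex _ _ ts hf h' k h1 h2 => exact T.fin_c k
  | mul _ _ ts hf h' A B hA e h1 d hd h2 =>
    obtain ⟨i, _⟩ := hA
    exact T.fin_c i

variable (hE2 : ∀ s t, E s t → Eqv s t)

include hE2 in
/-- everything below a word is a proper subword -/
theorem Setup.gt_enc (u : List Bool) :
    ∀ t, Gt E (T.enc u) t → ∃ v, t = T.enc v ∧ v <+ u ∧ v ≠ u := by
  induction u with
  | nil =>
    intro t h
    exact absurd h (T.not_c_gt E t)
  | cons x u ih =>
    intro t h
    have hne : ∀ v, v <+ u → v ≠ x :: u := by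
      intro v hv e
      have := hv.length_le
      rw [e] at this
      simp at this
    unfold Setup.enc Setup.ctx at h
    cases h with
    | subEq _ _ _ i h =>
      dsimp only at h
      split_ifs at h
      · exact ⟨u, T.eqv_enc _ _ h, List.sublist_cons_self _ _, hne _ (Sublist.refl _)⟩
      · exact ⟨[], T.eqv_enc [] _ h, List.nil_sublist _, hne _ (List.nil_sublist _)⟩
    | subGt _ _ _ i h =>
      dsimp only at h
      split_ifs at h
      · obtain ⟨v, h1, h2, h3⟩ := ih _ h
        exact ⟨v, h1, h2.trans (List.sublist_cons_self _ _), hne _ h2⟩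
      · exact absurd h (T.not_c_gt E t)
    | prec _ g _ ts h h' =>
      have := T.hmin x g h
      subst this
      exact ⟨[], T.app_c ts, List.nil_sublist _, hne _ (List.nil_sublist _)⟩
    | lex _ _ ts hf h' k h1 h2 =>
      dsimp only at h1 h2
      have hk : k = T.last x := by
        by_contra hk
        rw [if_neg hk] at h2
        exact T.not_c_gt E _ h2
      subst hk
      rw [if_pos rfl] at h2
      obtain ⟨v, h3, h4, h5⟩ := ih _ h2
      refine ⟨x :: v, ?_, h4.cons_cons _, fun e => h5 (by simpa using e)⟩
      unfold Setup.enc Setup.ctx
      congr 1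
      funext i
      split_ifs with hi
      · rw [hi, h3]
      · have h6 := h1 i (T.lt_last hi)
        rw [if_neg hi] at h6
        exact T.eqv_enc [] _ (hE2 _ _ h6)
    | mul _ _ ts hf h' A B hA e h1 d hd h2 =>
      have har : S.ar (T.s x) = 1 := by
        rcases T.hst x with h | h
        · rw [h] at hf; cases hf
        · exact h
      have hsub : ∀ i j : Fin (S.ar (T.s x)), i = j := by
        intro i j
        have h3 := i.2
        have h4 := j.2
        apply Fin.ext
        omega
      have hB : T.last x ∈ B := by
        by_contra hB
        obtain ⟨i, hi⟩ := hA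
        have := (e.symm ⟨T.last x, hB⟩).2
        rw [hsub (e.symm ⟨T.last x, hB⟩).1 i] at this
        exact this hi
      have h3 := h2 _ hB
      dsimp only at h3
      rw [if_pos (hsub _ _)] at h3
      obtain ⟨v, h3, h4, h5⟩ := ih _ h3
      refine ⟨x :: v, ?_, h4.cons_cons _, fun e => h5 (by simpa using e)⟩
      unfold Setup.enc Setup.ctx
      congr 1
      funext i
      rw [if_pos (hsub _ _), hsub i (T.last x), h3]

variable (hE1 : ∀ s, E s s)

include hE1 in
/-- domination of the arguments -/
theorem dom (f : Fin S.n) (ts us : Fin (S.ar f) → Tm S) (h : ∀ i, ts i = us i ∨ Gt E (ts i) (us i)) :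
    Tm.app f ts = Tm.app f us ∨ Gt E (.app f ts) (.app f us) := by
  classical
  by_cases hall : ∀ i, ts i = us i
  · left
    congr 1
    funext i
    exact hall i
  · right
    have h' : ∀ j, Gt E (.app f ts) (us j) := by
      intro j
      rcases h j with h1 | h1
      · refine .subEq _ _ _ j ?_
        rw [h1]
        exact Eqv.refl _
      · exact .subGt _ _ _ j h1
    push Not at hall
    cases hf : S.lex f with
    | true =>
      let P : Finset (Fin (S.ar f)) := Finset.univ.filter (fun i => ts i ≠ us i)
      have hP : P.Nonempty := by
        obtain ⟨i, hi⟩ := hall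
        exact ⟨i, by simp [P, hi]⟩
      refine .lex f ts us hf h' (P.min' hP) ?_ ?_
      · intro j hj
        by_cases e : ts j = us j
        · rw [e]; exact hE1 _
        · exfalso
          have : j ∈ P := by simp [P, e]
          exact absurd (P.min'_le j this) (not_le.2 hj)
      · have h1 := P.min'_mem hP
        simp only [P, Finset.mem_filter, Finset.mem_univ, true_and] at h1
        exact (h _).resolve_left h1
    | false =>
      refine .mul f ts us hf h' {i | ts i ≠ us i} {i | ts i ≠ us i} hall (Equiv.refl _) ?_ id
        (fun j hj => hj) ?_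
      · rintro ⟨i, hi⟩
        have hi : ts i = us i := not_not.1 hi
        simp only [Equiv.refl_apply]
        rw [hi]
        exact Eqv.refl _
      · intro j hj
        exact (h j).resolve_left hj

theorem Setup.gt_c (x : Bool) (w : List Bool) : Gt E (T.enc (x :: w)) T.cT := by
  induction w generalizing x with
  | nil =>
    refine .subEq _ _ _ (T.last x) ?_
    rw [if_pos rfl]
    exact Eqv.refl _
  | cons y w ih =>
    refine .subGt _ _ _ (T.last x) ?_
    rw [if_pos rfl]
    exact ih y

include hE1 in
theorem Setup.enc_gt {u v : List Bool} (h : v <+ u) : T.enc u = T.enc v ∨ Gt E (T.enc u) (T.enc v) := by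
  induction h with
  | slnil => exact Or.inl rfl
  | cons x h ih =>
    right
    rcases ih with ih | ih
    · refine .subEq _ _ _ (T.last x) ?_
      rw [if_pos rfl, ih]
      exact Eqv.refl _
    · refine .subGt _ _ _ (T.last x) ?_
      rw [if_pos rfl]
      exact ih
  | cons_cons x h ih =>
    refine dom E hE1 _ _ _ fun i => ?_
    split_ifs
    · exact ih
    · exact Or.inl rfl

include hE1 hE2 in
/-- on words the ordering (`≥`) is the subword ordering -/
theorem Setup.le_iff (u v : List Bool) : (Gt E (T.enc u) (T.enc v) ∨ T.enc u = T.enc v) ↔ v <+ u := by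
  constructor
  · rintro (h | h)
    · obtain ⟨v', h1, h2, _⟩ := T.gt_enc E hE2 u _ h
      rw [T.enc_inj h1]
      exact h2
    · rw [T.enc_inj h]
  · intro h
    exact (T.enc_gt E hE1 h).symm

/-- `t` is the term of a word -/
def Setup.W (t : Tm S) : Prop := ∃ w, t = T.enc w

/-- the word of an optional letter -/
def optw : Option Bool → List Bool
  | none => []
  | some x => [x]

include hE1 in
/-- every other term is at least as large as one of finitely many other terms -/
theorem Setup.exists_bad : ∀ t : Tm S, ¬ T.W t → ∃ (h : Fin S.n) (p : Fin (S.ar h) → Option Bool),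
    ¬ T.W (.app h fun i => T.enc (optw (p i))) ∧
    (t = (.app h fun i => T.enc (optw (p i))) ∨ Gt E t (.app h fun i => T.enc (optw (p i)))) := by
  classical
  intro t
  induction t with
  | app h ts ih =>
    intro hW
    by_cases hall : ∀ i, T.W (ts i)
    · choose w hw using hall
      have hdom : ∀ (i : Fin (S.ar h)), ts i = T.enc [] ∨ Gt E (ts i) (T.enc []) := by
        intro i
        rw [hw i]
        cases w i with
        | nil => exact Or.inl rfl
        | cons x u => exact Or.inr (T.gt_c E x u)
      by_cases hs : ∃ y, T.s y = h
      · obtain ⟨y, rfl⟩ := hs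
        have hex : ∃ k, k ≠ T.last y ∧ w k ≠ [] := by
          by_contra hno
          push Not at hno
          apply hW
          refine ⟨y :: w (T.last y), ?_⟩
          unfold Setup.enc Setup.ctx
          congr 1
          funext i
          split_ifs with hi
          · rw [hw i, hi]
          · rw [hw i, hno i hi]; rfl
        obtain ⟨k, hk, hwk⟩ := hex
        obtain ⟨x, u, hxu⟩ := List.exists_cons_of_ne_nil hwk
        refine ⟨T.s y, fun i => if i = k then some x else none, ?_, ?_⟩
        · rintro ⟨v, hv⟩
          cases v with
          | nil =>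
            simp only [Setup.enc, Setup.cT, Tm.app.injEq] at hv
            exact T.ne_c y hv.1
          | cons z v =>
            have hz : z = y := by
              simp only [Setup.enc, Setup.ctx, Tm.app.injEq] at hv
              exact (T.inj hv.1).symm
            subst hz
            simp only [Setup.enc, Setup.ctx, Tm.app.injEq, heq_eq_eq, true_and] at hv
            have h1 := congrFun hv k
            simp only [if_true, if_neg hk] at h1
            have h2 : T.enc [x] = T.enc [] := h1
            have h3 := T.enc_inj h2
            cases h3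
        · refine dom E hE1 _ _ _ fun i => ?_
          dsimp only
          split_ifs with hi
          · rw [hi, hw k, hxu]
            exact T.enc_gt E hE1 (by simp [optw])
          · exact hdom i
      · push Not at hs
        refine ⟨h, fun _ => none, ?_, ?_⟩
        · rintro ⟨v, hv⟩
          cases v with
          | nil =>
            simp only [Setup.enc, Setup.cT, Tm.app.injEq] at hv
            obtain ⟨rfl, _⟩ := hv
            exact hW ⟨[], T.app_c ts⟩
          | cons z v =>
            simp only [Setup.enc, Setup.ctx, Tm.app.injEq] at hv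
            exact hs z hv.1.symm
        · exact dom E hE1 _ _ _ hdom
    · push Not at hall
      obtain ⟨i, hi⟩ := hall
      obtain ⟨h', p, h1, h2⟩ := ih i hi
      refine ⟨h', p, h1, Or.inr ?_⟩
      rcases h2 with h2 | h2
      · refine .subEq _ _ _ i ?_
        rw [h2]
        exact Eqv.refl _
      · exact .subGt _ _ _ i h2

end Pool.Agent.R569.RPO
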